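import Pool.Agent.Helper64.BX.P3
import Pool.Agent.Helper14.BECX.Defs

/-! BEC exact P3 (MP_436ed3_co): hand-off to project BECX (captain: helper64) -/

set_option autoImplicit false

namespace Pool.Agent.Helper64.BX

open Finset Classical Pool.Agent.Helper5.BEC Pool.Agent.Helper14.BECX

theorem Pack3.elim {V : Type} [Fintype V] {W : Type} [Fintype W] {G : SimpleGraph V} {q m : ℕ}
    {R : SimpleGraph W} (h : Pack3 G q m R) :
    ∃ (f : W → V) (T : Fin m → Finset V), Function.Injective f ∧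
      (∀ a b, R.Adj a b → ¬ G.Adj (f a) (f b)) ∧ (∀ i, (T i).card = q) ∧
      (∀ i, ∀ x ∈ T i, ∀ y ∈ T i, ¬ G.Adj x y) ∧ (∀ i j, i ≠ j → Disjoint (T i) (T j)) ∧
      ∀ i, ∀ x ∈ T i, ∀ a, f a ≠ x := by
  obtain ⟨f, h1, h2, T, h3, h4, h5, h6⟩ := h
  refine ⟨f, T, h1, h2, h3, h4, h5, ?_⟩
  intro i x hx a ha
  have h7 := (Finset.ext_iff.1 h6 x).1 (mem_biUnion.2 ⟨i, mem_univ _, hx⟩)
  rw [mem_sdiff, mem_image] at h7
  exact h7.2 ⟨a, mem_univ _, ha⟩

variable {n : ℕ}

/-- the graph of a neighbourhood system -/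
def gr (A : Nb n) : SimpleGraph (Fin n) where
  Adj u v := u ∈ A.N v
  symm := ⟨fun _ _ h => A.symm _ _ h⟩
  loopless := ⟨fun v h => A.irr v h⟩

theorem dg_gr (A : Nb n) (v : Fin n) : dg (gr A) v univ = (A.N v).card := by
  unfold dg
  congr 1
  ext u
  simp only [mem_filter, mem_univ, true_and, gr]
  exact ⟨fun h => A.symm _ _ h, fun h => A.symm _ _ h⟩

/-- closed neighbourhood -/
def clN (A : Nb n) (v : Fin n) : Finset (Fin n) := insert v (A.N v)

theorem clN_card {A : Nb n} {k : ℕ} {v : Fin n} (h : InK A k v) : (clN A v).card = k + 1 := by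
  unfold clN
  rw [card_insert_of_notMem (A.irr v), h.1]

theorem clN_eq {A : Nb n} {k : ℕ} (hA : ∀ v, (A.N v).card ≤ k) {v u : Fin n} (h : InK A k v)
    (hu : u ∈ A.N v) : clN A u = clN A v ∧ InK A k u := by
  have hsub : clN A v \ {u} ⊆ A.N u := by
    intro x hx
    rw [mem_sdiff, mem_singleton, clN, mem_insert] at hx
    obtain ⟨hx1 | hx1, hx2⟩ := hx
    · subst hx1; exact A.symm _ _ hu
    · exact h.2 u hu x hx1 (Ne.symm hx2)
  have huc : u ∈ clN A v := by unfold clN; exact mem_insert_of_mem hu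
  have hc : (clN A v \ {u}).card = k := by
    rw [card_sdiff_of_subset (singleton_subset_iff.2 huc), clN_card h]
    simp
  have heq : clN A v \ {u} = A.N u := eq_of_subset_of_card_le hsub (by rw [hc]; exact hA u)
  have hcl : clN A u = clN A v := by
    unfold clN at huc ⊢
    rw [← heq]
    unfold clN
    ext x
    simp only [mem_insert, mem_sdiff, mem_singleton] at huc ⊢
    constructor
    · rintro (h1 | h1)
      · subst h1; exact huc
      · exact h1.1
    · intro h1
      by_cases hxu : x = u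
      · exact Or.inl hxu
      · exact Or.inr ⟨h1, hxu⟩
  refine ⟨hcl, ?_, ?_⟩
  · rw [← heq, hc]
  · intro x hx y hy hxy
    have hx' : x ∈ clN A v := by rw [← hcl]; exact mem_insert_of_mem hx
    have hy' : y ∈ clN A v := by rw [← hcl]; exact mem_insert_of_mem hy
    unfold clN at hx' hy'
    rw [mem_insert] at hx' hy'
    rcases hx' with hx' | hx' <;> rcases hy' with hy' | hy'
    · exact absurd (hx'.trans hy'.symm) hxy
    · rw [hx']; exact hy'
    · rw [hy']; exact A.symm _ _ hx'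
    · exact h.2 x hx' y hy' hxy

theorem mem_clN (A : Nb n) (v : Fin n) : v ∈ clN A v := mem_insert_self _ _

theorem clN_eq_of_mem {A : Nb n} {k : ℕ} (hA : ∀ v, (A.N v).card ≤ k) {v u : Fin n}
    (h : InK A k v) (hu : u ∈ clN A v) : clN A u = clN A v ∧ InK A k u := by
  unfold clN at hu
  rw [mem_insert] at hu
  rcases hu with hu | hu
  · subst hu; exact ⟨rfl, h⟩
  · exact clN_eq hA h hu

/-- Few vertices outside the complete components: packing. -/
theorem packing_few (k : ℕ) (hk : 1 ≤ k) :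
    ∃ μ : ℝ, 0 < μ ∧ ∃ n0 : ℕ, ∀ (n : ℕ) (A B : Nb n) (d : ℕ), n0 ≤ n →
      (∀ v, (A.N v).card ≤ k) → (∀ y, (B.N y).card ≤ d) → (k + 1) * (d + 1) ≤ n + 1 →
      ((univ.filter fun v => ¬ InK A k v).card : ℝ) ≤ μ * n →
      ∃ τ : Equiv.Perm (Fin n), ∀ u v, u ∈ A.N v → τ u ∉ B.N (τ v) := by
  obtain ⟨μ, hμ, n0, h⟩ := p3_pack (k + 1) (by omega)
  refine ⟨μ, hμ, n0, ?_⟩
  intro n A B d hn hA hB hkd hfew
  -- the classes
  set Ks : Finset (Fin n) := univ.filter fun v => InK A k v with hKs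
  set P : Finset (Finset (Fin n)) := Ks.image (clN A) with hP
  have hPc : ∀ c ∈ P, c.card = k + 1 := by
    intro c hc
    rw [hP, mem_image] at hc
    obtain ⟨v, hv, rfl⟩ := hc
    rw [hKs, mem_filter] at hv
    exact clN_card hv.2
  have hPd : ∀ c ∈ P, ∀ c' ∈ P, c ≠ c' → Disjoint c c' := by
    intro c hc c' hc' hne
    rw [hP, mem_image] at hc hc'
    obtain ⟨v, hv, rfl⟩ := hc
    obtain ⟨v', hv', rfl⟩ := hc'
    rw [hKs, mem_filter] at hv hv'
    rw [disjoint_left]
    intro x hx hx'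
    exact hne ((clN_eq_of_mem hA hv.2 hx).1.symm.trans (clN_eq_of_mem hA hv'.2 hx').1)
  have hPU : P.biUnion id = Ks := by
    ext x
    simp only [mem_biUnion, id]
    constructor
    · rintro ⟨c, hc, hx⟩
      rw [hP, mem_image] at hc
      obtain ⟨v, hv, rfl⟩ := hc
      rw [hKs, mem_filter] at hv ⊢
      exact ⟨mem_univ _, (clN_eq_of_mem hA hv.2 hx).2⟩
    · intro hx
      exact ⟨clN A x, mem_image_of_mem _ hx, mem_clN A x⟩
  have hKsc : Ks.card = (k + 1) * P.card := by
    have h1 : ∑ c ∈ P, (id c : Finset (Fin n)).card = ∑ _c ∈ P, (k + 1) :=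
      sum_congr rfl (fun c hc => hPc c hc)
    rw [← hPU, card_biUnion (t := id) (fun c hc c' hc' hne => hPd c hc c' hc' hne), h1,
      sum_const, smul_eq_mul, mul_comm]
  let W : Type := {v : Fin n // ¬ InK A k v}
  let R : SimpleGraph W := (gr A).comap Subtype.val
  have hWc : Fintype.card W = (univ.filter fun v => ¬ InK A k v).card := Fintype.card_subtype _
  have hsum : Ks.card + Fintype.card W = n := by
    rw [hWc, hKs, card_filter_add_card_filter_not, card_univ, Fintype.card_fin]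
  have hdegR : ∀ a : W, dg R a univ + 1 ≤ k + 1 := by
    intro a
    have h1 : dg R a univ ≤ (A.N a.1).card := by
      rw [← dg_gr A a.1]
      unfold dg
      refine card_le_card_of_injOn Subtype.val ?_ (fun x _ y _ hxy => Subtype.ext hxy)
      intro x hx
      simp only [coe_filter, mem_univ, true_and, Set.mem_setOf_eq] at hx ⊢
      exact hx
    have := hA a.1
    omega
  obtain ⟨f, T, hf1, hf2, hT1, hT2, hT3, hT4⟩ := (h (Fin n) (gr B) d
    (by rw [Fintype.card_fin]; exact hn) (fun v => by rw [dg_gr]; exact hB v)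
    (by rw [Fintype.card_fin]; exact hkd) W R P.card hdegR
    (by rw [Fintype.card_fin, ← hKsc, hsum])
    (by rw [hWc, Fintype.card_fin]; exact hfew)).elim
  -- bijections of the classes with the tiles
  have hbij : ∀ c : P, ∃ g : Fin n → Fin n, (∀ x ∈ c.1, g x ∈ T (P.equivFin c)) ∧
      ∀ x ∈ c.1, ∀ y ∈ c.1, g x = g y → x = y := by
    intro c
    have hcard : c.1.card = (T (P.equivFin c)).card := by rw [hPc c.1 c.2, hT1]
    have e := Finset.equivOfCardEq hcard
    refine ⟨fun x => if hx : x ∈ c.1 then (e ⟨x, hx⟩).1 else x, ?_, ?_⟩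
    · intro x hx
      simp only [hx, dite_true]
      exact (e ⟨x, hx⟩).2
    · intro x hx y hy hxy
      simp only [hx, hy, dite_true] at hxy
      have := e.injective (Subtype.ext hxy)
      exact congrArg Subtype.val this
  choose g hg1 hg2 using hbij
  have hcls : ∀ v, InK A k v → clN A v ∈ P := fun v hv =>
    mem_image_of_mem _ (by rw [hKs, mem_filter]; exact ⟨mem_univ _, hv⟩)
  let F : Fin n → Fin n := fun v =>
    if hv : InK A k v then g ⟨clN A v, hcls v hv⟩ v else f ⟨v, hv⟩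
  have hF1 : ∀ v (hv : InK A k v), F v = g ⟨clN A v, hcls v hv⟩ v := by
    intro v hv; simp only [F, hv, dite_true]
  have hF2 : ∀ v (hv : ¬ InK A k v), F v = f ⟨v, hv⟩ := by
    intro v hv; simp only [F, hv, dite_false]
  have hFT : ∀ v (hv : InK A k v), F v ∈ T (P.equivFin ⟨clN A v, hcls v hv⟩) := by
    intro v hv
    rw [hF1 v hv]
    exact hg1 _ v (mem_clN A v)
  have hTf : ∀ i x, x ∈ T i → ∀ a : W, f a ≠ x := fun i x hx a => hT4 i x hx a
  have hFinj : Function.Injective F := by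
    intro u v huv
    by_cases hu : InK A k u <;> by_cases hv : InK A k v
    · have h1 := hFT u hu
      have h2 := hFT v hv
      have hidx : (⟨clN A u, hcls u hu⟩ : P) = ⟨clN A v, hcls v hv⟩ := by
        by_contra hne
        have := hT3 _ _ (fun hh => hne (P.equivFin.injective hh))
        rw [disjoint_left] at this
        exact this h1 (huv ▸ h2)
      rw [hF1 u hu, hF1 v hv] at huv
      have hcl : clN A u = clN A v := congrArg Subtype.val hidx
      rw [hidx] at huv
      exact hg2 _ u (by show u ∈ clN A v; rw [← hcl]; exact mem_clN A u) v (mem_clN A v) huv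
    · exact absurd ((hF2 v hv).symm.trans huv.symm) (hTf _ _ (hFT u hu) ⟨v, hv⟩)
    · exact absurd ((hF2 u hu).symm.trans huv) (hTf _ _ (hFT v hv) ⟨u, hu⟩)
    · rw [hF2 u hu, hF2 v hv] at huv
      exact congrArg Subtype.val (hf1 huv)
  refine ⟨Equiv.ofBijective F (Finite.injective_iff_bijective.1 hFinj), ?_⟩
  intro u v huv
  show F u ∉ B.N (F v)
  by_cases hv : InK A k v
  · obtain ⟨hcl, hu⟩ := clN_eq hA hv huv
    have h1 := hFT u hu
    have h2 := hFT v hv
    have hidx : (⟨clN A u, hcls u hu⟩ : P) = ⟨clN A v, hcls v hv⟩ := Subtype.ext hcl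
    rw [hidx] at h1
    exact hT2 _ _ h1 _ h2
  · by_cases hu : InK A k u
    · exact absurd (clN_eq hA hu (A.symm _ _ huv)).2 hv
    · rw [hF2 u hu, hF2 v hv]
      exact hf2 ⟨u, hu⟩ ⟨v, hv⟩ huv

end Pool.Agent.Helper64.BX
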