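import Pool.Agent.Helper64.BX.Defs

/-! BEC exact P3: basic lemmas -/

set_option autoImplicit false

namespace Pool.Agent.Helper64.BX

open Finset Classical

variable {V : Type} {G : SimpleGraph V}

theorem HA.symm {x y : V} (h : HA G x y) : HA G y x := ⟨h.1.symm, fun h' => h.2 h'.symm⟩

theorem Ind.mono {S T : Finset V} (hT : Ind G T) (h : S ⊆ T) : Ind G S :=
  fun x hx y hy => hT x (h hx) y (h hy)

theorem ind_empty : Ind G ∅ := by intro x hx; simp at hx

theorem ind_singleton (v : V) : Ind G {v} := by
  intro x hx y hy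
  rw [mem_singleton] at hx hy
  subst hx; subst hy
  exact G.irrefl

theorem ind_union {S T : Finset V} (hS : Ind G S) (hT : Ind G T)
    (h : ∀ x ∈ S, ∀ y ∈ T, ¬ G.Adj x y) : Ind G (S ∪ T) := by
  intro x hx y hy
  rw [mem_union] at hx hy
  rcases hx with hx | hx <;> rcases hy with hy | hy
  · exact hS x hx y hy
  · exact h x hx y hy
  · exact fun h' => h y hy x hx h'.symm
  · exact hT x hx y hy

theorem dg_mono {v : V} {S T : Finset V} (h : S ⊆ T) : dg G v S ≤ dg G v T :=
  card_le_card (filter_subset_filter _ h)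

theorem dg_le_card (v : V) (S : Finset V) : dg G v S ≤ S.card := card_filter_le _ _

theorem dg_union_le (v : V) (S T : Finset V) : dg G v (S ∪ T) ≤ dg G v S + dg G v T := by
  unfold dg
  rw [filter_union]
  exact card_union_le _ _

theorem dg_union_disj (v : V) {S T : Finset V} (h : Disjoint S T) :
    dg G v (S ∪ T) = dg G v S + dg G v T := by
  unfold dg
  rw [filter_union, card_union_of_disjoint]
  exact disjoint_filter_filter h

theorem dg_sdiff_add (v : V) {S T : Finset V} (h : S ⊆ T) :
    dg G v (T \ S) + dg G v S = dg G v T := by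
  rw [← dg_union_disj v (sdiff_disjoint), sdiff_union_of_subset h]

/-- number of `H`-neighbours in a set not containing `v` -/
theorem card_HA_add {v : V} {S : Finset V} (h : v ∉ S) :
    (S.filter (fun u => HA G v u)).card + dg G v S = S.card := by
  unfold dg
  rw [← card_union_of_disjoint]
  · congr 1
    ext u
    simp only [mem_union, mem_filter]
    constructor
    · rintro (h1 | h1) <;> exact h1.1
    · intro hu
      by_cases h2 : G.Adj v u
      · exact Or.inr ⟨hu, h2⟩
      · refine Or.inl ⟨hu, ?_, h2⟩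
        rintro rfl
        exact h hu
  · rw [disjoint_left]
    intro u hu1 hu2
    rw [mem_filter] at hu1 hu2
    exact hu1.2.2 hu2.2

theorem card_HA_add_of_mem {v : V} {S : Finset V} (h : v ∈ S) :
    (S.filter (fun u => HA G v u)).card + dg G v S + 1 = S.card := by
  have h1 : S.filter (fun u => HA G v u) = (S.erase v).filter (fun u => HA G v u) := by
    ext u
    simp only [mem_filter, mem_erase]
    constructor
    · rintro ⟨h1, h2⟩
      exact ⟨⟨h2.1.symm, h1⟩, h2⟩
    · rintro ⟨⟨_, h1⟩, h2⟩
      exact ⟨h1, h2⟩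
  have h2 : dg G v S = dg G v (S.erase v) := by
    unfold dg
    congr 1
    ext u
    simp only [mem_filter, mem_erase]
    constructor
    · rintro ⟨h1, h2⟩
      exact ⟨⟨h2.ne', h1⟩, h2⟩
    · rintro ⟨⟨_, h1⟩, h2⟩
      exact ⟨h1, h2⟩
  rw [h1, h2, card_HA_add (notMem_erase v S), card_erase_of_mem h]
  have := card_pos.mpr ⟨v, h⟩
  omega

theorem tl_zero (s : ℕ) : Tl G s 0 (∅ : Finset V) :=
  ⟨fun i => i.elim0, fun i => i.elim0, fun i => i.elim0, fun i => i.elim0, by simp⟩

theorem tl_one {s : ℕ} {T : Finset V} (h1 : T.card = s) (h2 : Ind G T) : Tl G s 1 T :=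
  ⟨fun _ => T, fun _ => h1, fun _ => h2, fun i j h => (h (Subsingleton.elim i j)).elim, by simp⟩

theorem tl_card {s M : ℕ} {U : Finset V} (h : Tl G s M U) : U.card = s * M := by
  obtain ⟨T, h1, -, h3, h4⟩ := h
  rw [← h4, card_biUnion (fun i _ j _ hij => h3 i j hij), sum_congr rfl (fun i _ => h1 i)]
  simp [mul_comm]

theorem tl_union {s M M' : ℕ} {U U' : Finset V} (h : Tl G s M U) (h' : Tl G s M' U')
    (hd : Disjoint U U') : Tl G s (M + M') (U ∪ U') := by
  obtain ⟨T, h1, h2, h3, h4⟩ := h
  obtain ⟨T', h1', h2', h3', h4'⟩ := h'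
  have hTU : ∀ i, T i ⊆ U := fun i => h4 ▸ subset_biUnion_of_mem T (mem_univ i)
  have hTU' : ∀ i, T' i ⊆ U' := fun i => h4' ▸ subset_biUnion_of_mem T' (mem_univ i)
  refine ⟨fun k => Fin.addCases T T' k, ?_, ?_, ?_, ?_⟩
  · intro k
    refine Fin.addCases (fun i => ?_) (fun i => ?_) k
    · simpa using h1 i
    · simpa using h1' i
  · intro k
    refine Fin.addCases (fun i => ?_) (fun i => ?_) k
    · simpa using h2 i
    · simpa using h2' i
  · intro k l
    refine Fin.addCases (fun i => ?_) (fun i => ?_) k <;>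
      refine Fin.addCases (fun j => ?_) (fun j => ?_) l
    · intro hne
      simp only [Fin.addCases_left]
      exact h3 i j (fun h => hne (by rw [h]))
    · intro _
      simp only [Fin.addCases_left, Fin.addCases_right]
      exact (hd.mono_left (hTU i)).mono_right (hTU' j)
    · intro _
      simp only [Fin.addCases_left, Fin.addCases_right]
      exact ((hd.mono_left (hTU j)).mono_right (hTU' i)).symm
    · intro hne
      simp only [Fin.addCases_right]
      exact h3' i j (fun h => hne (by rw [h]))
  · ext x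
    simp only [mem_biUnion, mem_univ, true_and, mem_union]
    constructor
    · rintro ⟨k, hk⟩
      revert hk
      refine Fin.addCases (fun i => ?_) (fun i => ?_) k
      · intro hk
        simp only [Fin.addCases_left] at hk
        exact Or.inl (hTU i hk)
      · intro hk
        simp only [Fin.addCases_right] at hk
        exact Or.inr (hTU' i hk)
    · rintro (hx | hx)
      · rw [← h4, mem_biUnion] at hx
        obtain ⟨i, -, hi⟩ := hx
        exact ⟨Fin.castAdd M' i, by simpa using hi⟩
      · rw [← h4', mem_biUnion] at hx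
        obtain ⟨i, -, hi⟩ := hx
        exact ⟨Fin.natAdd M i, by simpa using hi⟩

/-- a finite family of pairwise disjoint independent `s`-sets -/
theorem tl_of_family {s : ℕ} (P : Finset (Finset V)) (h1 : ∀ T ∈ P, T.card = s)
    (h2 : ∀ T ∈ P, Ind G T) (h3 : ∀ T ∈ P, ∀ T' ∈ P, T ≠ T' → Disjoint T T') :
    Tl G s P.card (P.biUnion id) := by
  refine ⟨fun i => (P.equivFin.symm i : Finset V), fun i => h1 _ (P.equivFin.symm i).2,
    fun i => h2 _ (P.equivFin.symm i).2, fun i j hij => ?_, ?_⟩
  · refine h3 _ (P.equivFin.symm i).2 _ (P.equivFin.symm j).2 (fun h => hij ?_)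
    exact P.equivFin.symm.injective (Subtype.ext h)
  · ext x
    simp only [mem_biUnion, mem_univ, true_and, id]
    constructor
    · rintro ⟨i, hi⟩
      exact ⟨_, (P.equivFin.symm i).2, hi⟩
    · rintro ⟨T, hT, hx⟩
      exact ⟨P.equivFin ⟨T, hT⟩, by simpa using hx⟩

theorem tl_singletons (U : Finset V) : Tl G 1 U.card U := by
  have h := tl_of_family (G := G) (s := 1) (U.image fun v => ({v} : Finset V))
    (by intro T hT; rw [mem_image] at hT; obtain ⟨v, -, rfl⟩ := hT; simp)
    (by intro T hT; rw [mem_image] at hT; obtain ⟨v, -, rfl⟩ := hT; exact ind_singleton v)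
    (by
      intro T hT T' hT' hne
      rw [mem_image] at hT hT'
      obtain ⟨v, -, rfl⟩ := hT
      obtain ⟨v', -, rfl⟩ := hT'
      rw [disjoint_singleton]
      rintro rfl
      exact hne rfl)
  rw [card_image_of_injective _ singleton_injective] at h
  convert h using 1
  ext x
  simp

end Pool.Agent.Helper64.BX
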