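import Mathlib

/-! BEC exact for fixed `k`, part P3 (MP_436ed3_co): definitions.  Paper: /team-store/BECX_P3_paper.md -/

set_option autoImplicit false

namespace Pool.Agent.Helper64.BX

open Finset Classical

noncomputable section

variable {V : Type}

/-- independent set of `G` -/
def Ind (G : SimpleGraph V) (T : Finset V) : Prop := ∀ x ∈ T, ∀ y ∈ T, ¬ G.Adj x y

/-- number of `G`-neighbours of `v` in `A` -/
def dg (G : SimpleGraph V) (v : V) (A : Finset V) : ℕ := (A.filter fun u => G.Adj v u).card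

/-- adjacent in the complement of `G` -/
def HA (G : SimpleGraph V) (x y : V) : Prop := x ≠ y ∧ ¬ G.Adj x y

/-- number of ordered pairs of elements of `Z` that are adjacent in the complement of `G` -/
def hn (G : SimpleGraph V) (Z : Finset V) : ℕ := ((Z ×ˢ Z).filter fun p => HA G p.1 p.2).card

/-- `U` is the disjoint union of `M` independent sets of size `s` -/
def Tl (G : SimpleGraph V) (s M : ℕ) (U : Finset V) : Prop :=
  ∃ T : Fin M → Finset V, (∀ i, (T i).card = s) ∧ (∀ i, Ind G (T i)) ∧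
    (∀ i j, i ≠ j → Disjoint (T i) (T j)) ∧ univ.biUnion T = U

/-- degree condition and absence of nearly independent sets (of the complement) of size `n / s` -/
structure NEh [Fintype V] (G : SimpleGraph V) (s : ℕ) (γ ε : ℝ) : Prop where
  deg : ∀ v, (dg G v univ : ℝ) ≤ (1 + ε) * ((Fintype.card V : ℝ) / s)
  ne : ∀ Z : Finset V, (1 - γ) * ((Fintype.card V : ℝ) / s) ≤ Z.card →
    γ * (Fintype.card V : ℝ) ^ 2 ≤ hn G Z

/-- `π` is a probability distribution on ordered cliques of the complement, with density at most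
`C / n ^ s` -/
structure IsD [Fintype V] (G : SimpleGraph V) (s : ℕ) (C : ℝ) (π : (Fin s → V) → ℝ) : Prop where
  nonneg : ∀ u, 0 ≤ π u
  sum : ∑ u, π u = 1
  le : ∀ u, π u ≤ C / (Fintype.card V : ℝ) ^ s
  clq : ∀ u, π u ≠ 0 → ∀ i j, i ≠ j → HA G (u i) (u j)

/-- the lower bound for the expected number of entries in an initial segment of size `r` -/
def Lb (s k z D : ℕ) (δ : ℝ) (r : ℕ) : ℝ :=
  (1 - δ) * min 1 ((r : ℝ) / k) +
    ∑ j ∈ Ico 2 (s + 1), (if (j - 1) * D + k ≤ r then (if j = s then 1 - δ else 1 - 2 * δ) else 0) +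
    ∑ i ∈ Ico 1 s, (if (i - 1) * D + z ≤ r then 2 * δ else 0)

/-- the array `a` absorbs the tuple `X` -/
def AbsA (G : SimpleGraph V) (s : ℕ) (X : Fin s → V) (a : Fin s → Fin s → V) : Prop :=
  (∀ i j j', j ≠ j' → HA G (a i j) (a i j')) ∧
  (∀ i j, j.val ≠ 0 → HA G (X i) (a i j)) ∧
  (∀ i i' j, i ≠ i' → j.val = 0 → HA G (a i j) (a i' j))

/-- constants -/
def cc (q : ℕ) : ℝ := 1 / (100 * (q : ℝ) ^ 2)

/-- constants -/
def cd (q : ℕ) : ℝ := cc q / (32 * q)

/-- The class structure of part C of the paper. -/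
structure Cls [Fintype V] (G : SimpleGraph V) (q t s d N : ℕ) (w : ℝ)
    (A AT : Fin t → Finset V) (B BT : Finset V) : Prop where
  q2 : 2 ≤ q
  ts : t + s = q
  dN : d ≤ N
  hN : N = Fintype.card V / q
  big : (q : ℝ) ≤ cd q * Fintype.card V
  w0 : 0 ≤ w
  w1 : w ≤ cd q
  deg : ∀ v, dg G v univ ≤ d
  disjA : ∀ i j, i ≠ j → Disjoint (A i) (A j)
  disjB : ∀ i, Disjoint (A i) B
  cov : univ.biUnion A ∪ B = univ
  subA : ∀ i, AT i ⊆ A i
  subB : BT ⊆ B
  cardA1 : ∀ i, (N : ℝ) - w * Fintype.card V ≤ (A i).card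
  cardA2 : ∀ i, ((A i).card : ℝ) ≤ N + w * Fintype.card V
  cardB1 : (s : ℝ) * N - w * Fintype.card V ≤ B.card
  cardB2 : (B.card : ℝ) ≤ s * N + w * Fintype.card V
  smA : ∀ i, ((A i \ AT i).card : ℝ) ≤ w * Fintype.card V
  smB : ((B \ BT).card : ℝ) ≤ w * Fintype.card V
  bnd : ∀ i, ∀ v ∈ A i, (dg G v (univ \ A i) : ℝ) ≤ 2 * cc q * Fintype.card V
  typA : ∀ i, ∀ v ∈ AT i, (dg G v (univ \ A i) : ℝ) ≤ cd q * Fintype.card V
  flx : ∀ v ∈ B, ∀ i, cc q / 2 * Fintype.card V + dg G v (A i) ≤ (A i).card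
  typB : ∀ v ∈ BT, ∀ i, (dg G v (A i) : ℝ) ≤ cd q * Fintype.card V

/-- matching edges reserved in the classes: disjoint pairs of `A i \ U` adjacent in the complement -/
def Res (G : SimpleGraph V) {t : ℕ} (A : Fin t → Finset V) (U : Finset V)
    (Mt : Fin t → Finset (Finset V)) : Prop :=
  (∀ i, ∀ e ∈ Mt i, e ⊆ A i \ U ∧ e.card = 2 ∧ Ind G e) ∧
  (∀ i, ∀ e ∈ Mt i, ∀ e' ∈ Mt i, e ≠ e' → Disjoint e e')

/-- `R` is placed and the rest of `V` is a union of `m` independent `q`-sets -/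
def Pack3 [Fintype V] {W : Type} [Fintype W] (G : SimpleGraph V) (q m : ℕ) (R : SimpleGraph W) :
    Prop :=
  ∃ f : W → V, Function.Injective f ∧ (∀ a b, R.Adj a b → ¬ G.Adj (f a) (f b)) ∧
    Tl G q m (univ \ univ.image f)

end

end Pool.Agent.Helper64.BX
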