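import Pool.Agent.Helper64.BX.Basic

/-! BEC exact P3 (MP_436ed3_co): the common statement of the four stages (s = 0, 1, 2, ≥ 3) -/

set_option autoImplicit false

namespace Pool.Agent.Helper64.BX

open Finset Classical

/-- Stage statement: packing if the complement has `t` nearly independent sets `A0 i` of size `N` and
(for `s ≥ 1`) no further one disjoint from them. -/
def StageP (q t s : ℕ) : Prop :=
  ∀ γ' : ℝ, 0 < γ' → ∃ γ : ℝ, 0 < γ ∧ γ ≤ γ' ∧ ∃ μ : ℝ, 0 < μ ∧ ∃ n₀ : ℕ,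
    ∀ (V : Type) [Fintype V] (G : SimpleGraph V) (d N : ℕ) (A0 : Fin t → Finset V),
      n₀ ≤ Fintype.card V → N = Fintype.card V / q → (∀ v, dg G v univ ≤ d) →
      q * (d + 1) ≤ Fintype.card V + 1 → (∀ i j, i ≠ j → Disjoint (A0 i) (A0 j)) →
      (∀ i, (A0 i).card = N) → (∀ i, (hn G (A0 i) : ℝ) ≤ γ * (Fintype.card V : ℝ) ^ 2) →
      (1 ≤ s → ∀ Z : Finset V, (∀ i, Disjoint Z (A0 i)) → Z.card = N →
        γ' * (Fintype.card V : ℝ) ^ 2 < hn G Z) →
      ∀ (W : Type) [Fintype W] (R : SimpleGraph W) (m : ℕ), (∀ a, dg R a univ + 1 ≤ q) →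
        Fintype.card V = q * m + Fintype.card W →
        (Fintype.card W : ℝ) ≤ μ * Fintype.card V → Pack3 G q m R

end Pool.Agent.Helper64.BX
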