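import Pool.Agent.Helper64.BX.St.St01
import Pool.Agent.Helper64.BX.St.St2
import Pool.Agent.Helper64.BX.St.St3

/-! BEC exact P3 (MP_436ed3_co): Theorem P3 (captain: helper64) -/

set_option autoImplicit false

namespace Pool.Agent.Helper64.BX

open Finset Classical

theorem stageP_all (q t s : ℕ) (hq : 2 ≤ q) (hts : t + s = q) : StageP q t s := by
  rcases Nat.lt_or_ge s 3 with h | h
  · interval_cases s
    · have : t = q := by omega
      subst this
      exact st0 t hq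
    · exact st1 q t hq hts
    · exact st2 q t hq hts
  · exact st3 q t s hq hts h

/-- the induction statement (downwards in `t`) -/
def PackQ (q t : ℕ) (γ μ : ℝ) (n₀ : ℕ) : Prop :=
  ∀ (V : Type) [Fintype V] (G : SimpleGraph V) (d N : ℕ) (A0 : Fin t → Finset V),
    n₀ ≤ Fintype.card V → N = Fintype.card V / q → (∀ v, dg G v univ ≤ d) →
    q * (d + 1) ≤ Fintype.card V + 1 → (∀ i j, i ≠ j → Disjoint (A0 i) (A0 j)) →
    (∀ i, (A0 i).card = N) → (∀ i, (hn G (A0 i) : ℝ) ≤ γ * (Fintype.card V : ℝ) ^ 2) →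
    ∀ (W : Type) [Fintype W] (R : SimpleGraph W) (m : ℕ), (∀ a, dg R a univ + 1 ≤ q) →
      Fintype.card V = q * m + Fintype.card W →
      (Fintype.card W : ℝ) ≤ μ * Fintype.card V → Pack3 G q m R

theorem packQ_exists (q : ℕ) (hq : 2 ≤ q) (s : ℕ) : ∀ t, t + s = q →
    ∃ γ : ℝ, 0 < γ ∧ ∃ μ : ℝ, 0 < μ ∧ ∃ n₀ : ℕ, PackQ q t γ μ n₀ := by
  induction s with
  | zero =>
    intro t ht
    obtain ⟨γ, hγ0, hγ1, μ, hμ, n₀, h⟩ := stageP_all q t 0 hq ht 1 one_pos
    refine ⟨γ, hγ0, μ, hμ, n₀, ?_⟩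
    intro V _ G d N A0 h1 h2 h3 h4 h5 h6 h7 W _ R m h8 h9 h10
    exact h V G d N A0 h1 h2 h3 h4 h5 h6 h7 (by omega) W R m h8 h9 h10
  | succ s ih =>
    intro t ht
    obtain ⟨γ', hγ'0, μ', hμ', n₀', h'⟩ := ih (t + 1) (by omega)
    obtain ⟨γ, hγ0, hγ1, μ, hμ, n₀, h⟩ := stageP_all q t (s + 1) hq ht γ' hγ'0
    refine ⟨γ, hγ0, min μ μ', lt_min hμ hμ', max n₀ n₀', ?_⟩
    intro V _ G d N A0 h1 h2 h3 h4 h5 h6 h7 W _ R m h8 h9 h10
    have hc : (0 : ℝ) ≤ Fintype.card V := Nat.cast_nonneg _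
    by_cases hZ : ∃ Z : Finset V, (∀ i, Disjoint Z (A0 i)) ∧ Z.card = N ∧
        (hn G Z : ℝ) ≤ γ' * (Fintype.card V : ℝ) ^ 2
    · obtain ⟨Z, hZ1, hZ2, hZ3⟩ := hZ
      refine h' V G d N (Fin.cons Z A0) ((le_max_right _ _).trans h1) h2 h3 h4 ?_ ?_ ?_ W R m h8 h9
        (h10.trans (mul_le_mul_of_nonneg_right (min_le_right _ _) hc))
      · intro i j
        refine Fin.cases ?_ (fun i => ?_) i <;> refine Fin.cases ?_ (fun j => ?_) j
        · intro hij; exact absurd rfl hij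
        · intro _; simpa using hZ1 j
        · intro _; simpa using (hZ1 i).symm
        · intro hij
          simp only [Fin.cons_succ]
          exact h5 i j (fun hh => hij (by rw [hh]))
      · intro i
        refine Fin.cases ?_ (fun i => ?_) i
        · simpa using hZ2
        · simpa using h6 i
      · intro i
        refine Fin.cases ?_ (fun i => ?_) i
        · simpa using hZ3
        · simp only [Fin.cons_succ]
          exact (h7 i).trans (mul_le_mul_of_nonneg_right hγ1 (by positivity))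
    · refine h V G d N A0 ((le_max_left _ _).trans h1) h2 h3 h4 h5 h6 h7 ?_ W R m h8 h9
        (h10.trans (mul_le_mul_of_nonneg_right (min_le_left _ _) hc))
      intro _ Z hZ1 hZ2
      by_contra hcon
      exact hZ ⟨Z, hZ1, hZ2, not_lt.1 hcon⟩

/-- Theorem P3 -/
theorem p3_pack (q : ℕ) (hq : 2 ≤ q) :
    ∃ μ : ℝ, 0 < μ ∧ ∃ n₀ : ℕ, ∀ (V : Type) [Fintype V] (G : SimpleGraph V) (d : ℕ),
      n₀ ≤ Fintype.card V → (∀ v, dg G v univ ≤ d) → q * (d + 1) ≤ Fintype.card V + 1 →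
      ∀ (W : Type) [Fintype W] (R : SimpleGraph W) (m : ℕ), (∀ a, dg R a univ + 1 ≤ q) →
        Fintype.card V = q * m + Fintype.card W →
        (Fintype.card W : ℝ) ≤ μ * Fintype.card V → Pack3 G q m R := by
  obtain ⟨γ, -, μ, hμ, n₀, h⟩ := packQ_exists q hq q 0 (by omega)
  refine ⟨μ, hμ, n₀, ?_⟩
  intro V _ G d h1 h2 h3 W _ R m h4 h5 h6
  exact h V G d _ (fun i => i.elim0) h1 rfl h2 h3 (fun i => i.elim0) (fun i => i.elim0)
    (fun i => i.elim0) W R m h4 h5 h6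

end Pool.Agent.Helper64.BX
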